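import Mathlib
import Pool.Agent.H52.FT.Targets

/-!
# The final contradiction (module ARI)
-/

namespace Pool.Agent.H57.FT.ARI

open Pool.Agent.H52.FT

theorem ari : T_ARI := by
  intro n κ lam lam0 pb h Je Θ Sg hlam h16 hn hκn hl0 hl1 hpb hh hΘ hJe hJ hSg hmain hκ
  have hn0 : 0 < n := by linarith
  have hdiv : 0 < (36 * n + 16) / lam := by positivity
  have hκ16 : 16 * lam < κ := by linarith
  have hκ0 : 0 < κ := by linarith
  have hκlam : 16 * lam ^ 2 + (36 * n + 16) < κ * lam := by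
    have h1 := mul_lt_mul_of_pos_right hκ hlam
    have h2 : (16 * lam + (36 * n + 16) / lam) * lam = 16 * lam ^ 2 + (36 * n + 16) := by
      field_simp
    rwa [h2] at h1
  have hn1 : 1 / n ≤ 1 := by rw [div_le_one hn0]; exact hn
  have hκbig : 576 < κ := by
    by_contra hcon
    push Not at hcon
    nlinarith
  have hpb1 : 15 * n / 16 ≤ pb := by rw [hpb]; linarith
  have hpb2 : pb ≤ n := by rw [hpb]; linarith
  have hpb0 : 0 < pb := by linarith
  have hΘ1 : Θ ≤ 11 / 10 * (κ * n) := by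
    rw [hΘ]
    nlinarith [mul_pos hκ0 hlam, mul_pos hκ0 hn0, sq_nonneg κ, sq_nonneg lam]
  have hΘ0 : 0 ≤ Θ := by
    rw [hΘ]
    nlinarith [mul_pos hκ0 hlam, mul_pos hκ0 hn0, mul_pos hlam hlam]
  have h1 : Θ * (n / pb - n * h / pb ^ 2) ≤ Θ * Sg := mul_le_mul_of_nonneg_left hSg hΘ0
  have h2 : Θ * (n / pb - n * h / pb ^ 2) ≤ κ * n + 2 * n + 4 * Je * (Θ / (n / 4)) := by linarith
  have h3 : Θ - Θ * h / pb ≤ κ * pb + 2 * pb + 16 * Je * Θ * pb / n ^ 2 := by
    have h4 := mul_le_mul_of_nonneg_right h2 (show 0 ≤ pb / n by positivity)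
    have e1 : Θ * (n / pb - n * h / pb ^ 2) * (pb / n) = Θ - Θ * h / pb := by
      field_simp
    have e2 : (κ * n + 2 * n + 4 * Je * (Θ / (n / 4))) * (pb / n) =
        κ * pb + 2 * pb + 16 * Je * Θ * pb / n ^ 2 := by
      field_simp
      ring
    rwa [e1, e2] at h4
  have hh0 : 0 < h := by rw [hh]; positivity
  have h5 : Θ * h / pb ≤ κ * lam / 24 := by
    rw [div_le_iff₀ hpb0, hh]
    have h6 : Θ * (lam / 48) ≤ 11 / 10 * (κ * n) * (lam / 48) :=
      mul_le_mul_of_nonneg_right hΘ1 (by positivity)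
    have h7 : κ * lam / 24 * (15 * n / 16) ≤ κ * lam / 24 * pb :=
      mul_le_mul_of_nonneg_left hpb1 (by positivity)
    have h8 : 0 < κ * n * lam := by positivity
    nlinarith
  have h9 : 16 * Je * Θ * pb / n ^ 2 ≤ lam * κ / 16 := by
    rw [div_le_iff₀ (by positivity)]
    have h10 : 16 * Je * Θ * pb ≤ 16 * Je * (11 / 10 * (κ * n)) * n := by
      have : 16 * Je * Θ ≤ 16 * Je * (11 / 10 * (κ * n)) :=
        mul_le_mul_of_nonneg_left hΘ1 (by positivity)
      exact mul_le_mul this hpb2 hpb0.le (by positivity)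
    have h11 : 16 * Je * (11 / 10 * (κ * n)) * n = (176 / 10 * Je) * (κ * n ^ 2) := by ring
    have h12 : (176 / 10 * Je) * (κ * n ^ 2) ≤ (lam / 16) * (κ * n ^ 2) :=
      mul_le_mul_of_nonneg_right (by linarith) (by positivity)
    calc 16 * Je * Θ * pb ≤ (176 / 10 * Je) * (κ * n ^ 2) := by rw [← h11]; exact h10
      _ ≤ (lam / 16) * (κ * n ^ 2) := h12
      _ = lam * κ / 16 * n ^ 2 := by ring
  have h13 : κ * pb ≤ κ * n - κ ^ 2 + κ * lam + 1 := by
    rw [hpb]
    have h14 : κ * (1 / n) ≤ 1 := by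
      rw [mul_one_div, div_le_one hn0]; linarith
    have h15 : κ * lam0 ≤ κ * (lam + 1 / n) := mul_le_mul_of_nonneg_left hl1 hκ0.le
    nlinarith
  have h16' : Θ ≤ κ * lam / 24 + (κ * n - κ ^ 2 + κ * lam + 1) + 2 * n + lam * κ / 16 := by linarith
  rw [hΘ] at h16'
  nlinarith [h16', hκlam]

end Pool.Agent.H57.FT.ARI
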