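import Mathlib
import Pool.Agent.H52.FT.Targets

/-!
# Universal words with balanced suffixes (module BAL)
-/

namespace Pool.Agent.H57.FT.BAL

open Pool.Agent.H52.FT

theorem exists_split {α : Type} (Q : List α → Prop) (w : List α) (hw : Q w) (h0 : ¬ Q []) :
    ∃ (u : List α) (c : α) (v : List α), w = u ++ c :: v ∧ ¬ Q u ∧ Q (u ++ [c]) := by
  induction w using List.reverseRecOn with
  | nil => exact absurd hw h0
  | append_singleton w' c ih =>
    by_cases h : Q w'
    · obtain ⟨u, c', v, h1, h2, h3⟩ := ih h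
      refine ⟨u, c', v ++ [c], ?_, h2, h3⟩
      rw [h1]; simp
    · exact ⟨w', c, [], rfl, h, hw⟩

theorem log_diff (x k x1 : ℝ) (hx : x = x1 + k) (hx1 : 0 < x1) (hk : 0 ≤ k) :
    k / x ≤ Real.log x - Real.log x1 := by
  have hxpos : 0 < x := by linarith
  have h1 := Real.log_le_sub_one_of_pos (x := x1 / x) (by positivity)
  rw [Real.log_div hx1.ne' hxpos.ne'] at h1
  have h2 : x1 / x - 1 = -(k / x) := by
    rw [hx] at hxpos ⊢; field_simp; ring
  linarith

theorem final_real (x k x1 T e b A lg lg1 tu tv : ℝ) (hx : x = x1 + k) (hk : 1 ≤ k) (hx1 : 1 ≤ x1)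
    (heb : 0 ≤ e + b) (hlog : k / x ≤ lg - lg1) (hIH : x1 ^ 2 - x1 * (A + (e + b + 1) * lg1) ≤ T)
    (hV : k * (T / x1 - b) ≤ tv) (hfb : k * x ≤ tu + 1 + k * e) :
    x ^ 2 - x * (A + (e + b + 1) * lg) ≤ tu + (T + tv) := by
  have hxpos : 0 < x := by linarith
  have hTd : x1 - (A + (e + b + 1) * lg1) ≤ T / x1 := by
    rw [le_div_iff₀ (by linarith)]
    nlinarith [hIH]
  have hTeq : T = x1 * (T / x1) := by
    rw [mul_div_cancel₀]
    linarith
  have hlogd2 : k ≤ x * (lg - lg1) := by
    have := mul_le_mul_of_nonneg_left hlog hxpos.le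
    rwa [mul_div_cancel₀ _ hxpos.ne'] at this
  set τ := T / x1 with hτ
  have hmain : x * (x1 - (A + (e + b + 1) * lg1)) ≤ T + k * τ := by
    rw [hTeq]
    have h1 : x1 * τ + k * τ = x * τ := by rw [hx]; ring
    rw [h1]
    exact mul_le_mul_of_nonneg_left hTd hxpos.le
  have hfinal : (e + b + 1) * k ≤ (e + b + 1) * (x * (lg - lg1)) :=
    mul_le_mul_of_nonneg_left hlogd2 (by linarith)
  have hx2 : x ^ 2 = x * x1 + k * x := by
    rw [hx]; ring
  rw [hx2]
  have e1 : x * (x1 - (A + (e + b + 1) * lg1)) = x * x1 - x * (A + (e + b + 1) * lg1) := by ring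
  have e2 : (e + b + 1) * (x * (lg - lg1)) = x * (A + (e + b + 1) * lg) - x * (A + (e + b + 1) * lg1) := by ring
  have e3 : (e + b + 1) * k = k * e + k * b + k := by ring
  have e4 : k * (τ - b) = k * τ - k * b := by ring
  rw [e1] at hmain
  rw [e2, e3] at hfinal
  rw [e4] at hV
  linarith

theorem bal : T_BAL := by
  intro α _ A e b X S w hA hFB
  obtain ⟨N, hN⟩ : ∃ N, N = S.card := ⟨_, rfl⟩
  induction N using Nat.strong_induction_on generalizing S w with
  | _ N ih =>
  intro hSX hS1 hU hB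
  have hxr : (1 : ℝ) ≤ S.card := by exact_mod_cast hS1
  have hlog : 0 ≤ Real.log S.card := Real.log_nonneg hxr
  rcases Nat.lt_or_ge A S.card with hAx | hAx
  swap
  · have h1 : (S.card : ℝ) ≤ A := by exact_mod_cast hAx
    have h2 : (0 : ℝ) ≤ tot S w := by positivity
    have h3 : 0 ≤ (e + b + 1 : ℝ) * Real.log S.card := by positivity
    nlinarith
  set x := S.card with hx
  set k := x / A with hk
  have hA0 : 0 < A := by omega
  have hAk : A * k ≤ x := Nat.mul_div_le x A
  have hk1 : 1 ≤ k := by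
    rw [hk, Nat.one_le_div_iff hA0]; omega
  have h2k : 2 * k ≤ x := (Nat.mul_le_mul_right k hA).trans hAk
  -- splitting
  have hKw : KU S w k := fun L hL _ => hU L hL
  have hK0 : ¬ KU S [] k := by
    intro h
    obtain ⟨T, hTS, hTk⟩ := Finset.exists_subset_card_eq (s := S) (n := k) (by omega)
    have h1 := h T.toList ⟨T.nodup_toList, fun z hz => hTS (Finset.mem_toList.mp hz)⟩
      (by rw [Finset.length_toList, hTk])
    have h2 := List.sublist_nil.mp h1
    have h3 : T.toList.length = 0 := by rw [h2]; rfl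
    rw [Finset.length_toList, hTk] at h3
    omega
  obtain ⟨u, c, v', hw, hu, huc⟩ := exists_split (fun l => KU S l k) w hKw hK0
  have hfb := hFB S (u ++ [c]) k hSX hAk huc
  have hc1 : tot S [c] ≤ 1 := by
    unfold tot
    have : ∀ a ∈ S, [c].count a = if a = c then 1 else 0 := by
      intro a _
      rw [List.count_singleton]
      by_cases h : a = c
      · simp [h]
      · simp [h, Ne.symm h]
    rw [Finset.sum_congr rfl this, Finset.sum_ite_eq']
    split_ifs <;> omega
  rw [tot_append] at hfb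
  obtain ⟨L, hLW, hLk, hLu⟩ : ∃ L : List α, Wd S L ∧ L.length = k ∧ ¬ L.Sublist u := by
    by_contra hcon
    apply hu
    intro L hL hLk
    by_contra h
    exact hcon ⟨L, hL, hLk, h⟩
  set V := L.toFinset with hV
  have hVS : V ⊆ S := by
    intro z hz
    exact hLW.2 z (List.mem_toFinset.mp hz)
  have hVk : V.card = k := by rw [hV, List.toFinset_card_of_nodup hLW.1, hLk]
  set v := c :: v' with hv
  set S1 := S \ V with hS1'
  have hS1c : S1.card = x - k := by rw [hS1', Finset.card_sdiff_of_subset hVS, hVk]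
  have hU1 : Uni S1 v := by
    intro M hM
    apply sublist_right_of_not_left hLu
    rw [← hw]
    apply hU
    refine ⟨?_, ?_⟩
    · rw [List.nodup_append]
      refine ⟨hLW.1, hM.1, ?_⟩
      intro a ha b' hb' hab
      have h1 := hM.2 b' hb'
      rw [hS1', Finset.mem_sdiff] at h1
      exact h1.2 (List.mem_toFinset.mpr (hab ▸ ha))
    · intro z hz
      rcases List.mem_append.mp hz with h | h
      · exact hLW.2 z h
      · exact (Finset.mem_sdiff.mp (hM.2 z h)).1
  have hvw : v <:+ w := ⟨u, hw.symm⟩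
  have hB1 : SBal b S1 v := by
    intro t ht a ha a' ha'
    exact hB t (ht.trans hvw) a (Finset.mem_sdiff.mp ha).1 a' (Finset.mem_sdiff.mp ha').1
  have hIH := ih S1.card (by rw [hS1c]; omega) S1 v rfl (by rw [hS1c]; omega) (by rw [hS1c]; omega) hU1 hB1
  set T := tot S1 v with hT
  have hx1r : (S1.card : ℝ) = x - k := by
    rw [hS1c, Nat.cast_sub (by omega)]
  have hx1pos : (1 : ℝ) ≤ S1.card := by
    have : 1 ≤ S1.card := by rw [hS1c]; omega
    exact_mod_cast this
  have hcount : ∀ z ∈ V, (T : ℝ) / S1.card - b ≤ v.count z := by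
    intro z hz
    have h1 : T ≤ S1.card * (v.count z + b) := by
      rw [hT, tot, ← smul_eq_mul, ← Finset.sum_const]
      refine Finset.sum_le_sum fun a ha => ?_
      exact hB v hvw a (Finset.mem_sdiff.mp ha).1 z (hVS hz)
    have h2 : (T : ℝ) ≤ S1.card * (v.count z + b) := by exact_mod_cast h1
    rw [sub_le_iff_le_add, div_le_iff₀ (by linarith)]
    linarith
  have hVtot : k * ((T : ℝ) / S1.card - b) ≤ tot V v := by
    have h1 : (tot V v : ℝ) = ∑ z ∈ V, (v.count z : ℝ) := by rw [tot, Nat.cast_sum]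
    rw [h1, ← hVk, ← nsmul_eq_mul, ← Finset.sum_const]
    exact Finset.sum_le_sum hcount
  have htot : tot S w = tot S u + (T + tot V v) := by
    rw [hw, tot_append, tot_sdiff hVS v]
  have hfbr : (k : ℝ) * x ≤ tot S u + 1 + k * e := by
    have h1 : k * x ≤ tot S u + 1 + k * e := by
      have h2 : k * x ≤ tot S u + tot S [c] + k * e := hfb
      omega
    exact_mod_cast h1
  have hlogd : (k : ℝ) / x ≤ Real.log x - Real.log S1.card :=
    log_diff _ _ _ (by rw [hx1r]; ring) (lt_of_lt_of_le one_pos hx1pos) (by positivity)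
  rw [htot]
  push_cast
  exact final_real x k S1.card T e b A (Real.log x) (Real.log S1.card) (tot S u) (tot V v)
    (by rw [hx1r]; ring) (by exact_mod_cast hk1) hx1pos (by positivity) hlogd hIH hVtot hfbr

end Pool.Agent.H57.FT.BAL
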